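import Mathlib

set_option autoImplicit false

namespace Pool.Agent.Results.MP_9320d9_al.PrimePowerOrders

universe u

open Finset

/-- Frobenius' theorem for the p-part: the number of p-elements of a finite group is divisible
by the order of a Sylow p-subgroup. -/
theorem frobenius_p (p : ℕ) (hp : p.Prime) : ∀ (n : ℕ) (G : Type u) [Group G] [Finite G],
    Nat.card G = n →
      p ^ (Nat.card G).factorization p ∣ Nat.card {g : G // ∃ k : ℕ, g ^ (p ^ k) = 1} := by
  intro n
  induction n using Nat.strong_induction_on with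
  | _ n ih =>
  intro G _ _ hn
  classical
  let _ : Fintype G := Fintype.ofFinite G
  have : Fact p.Prime := ⟨hp⟩
  set q : ℕ := p ^ (Nat.card G).factorization p with hq
  set m : ℕ := Nat.card G / q with hm
  have hG0 : Nat.card G ≠ 0 := Nat.card_pos.ne'
  have hqm : q * m = Nat.card G := Nat.ordProj_mul_ordCompl_eq_self _ _
  have hcop : Nat.Coprime q m := Nat.Coprime.pow_left _ (Nat.coprime_ordCompl hp hG0)
  obtain ⟨e, he0, he1⟩ := Nat.chineseRemainder hcop 0 1
  have hqe : q ∣ e := (Nat.modEq_zero_iff_dvd).1 he0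
  have hpow_card : ∀ g : G, g ^ (q * m) = 1 := fun g => by rw [hqm]; exact pow_card_eq_one'
  -- elements of p-power order satisfy x ^ q = 1
  have hpq : ∀ x : G, (∃ k : ℕ, x ^ (p ^ k) = 1) → x ^ q = 1 := by
    rintro x ⟨k, hk⟩
    have h1 : orderOf x ∣ p ^ k := orderOf_dvd_of_pow_eq_one hk
    obtain ⟨j, -, hj⟩ := (Nat.dvd_prime_pow hp).1 h1
    have h2 : orderOf x ∣ Nat.card G := orderOf_dvd_natCard x
    rw [hj] at h2
    have h3 : orderOf x ∣ q := by
      rw [hj, hq]
      exact (hp.pow_dvd_iff_dvd_ordProj hG0).1 h2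
    exact orderOf_dvd_iff_pow_eq_one.1 h3
  set F : G → ℕ := fun s => Nat.card {g : G // g ^ e = s} with hF
  have hsum : Nat.card G = ∑ s : G, F s := by
    rw [hF, ← Nat.card_sigma]
    exact Nat.card_congr (Equiv.sigmaFiberEquiv (fun g : G => g ^ e)).symm
  have hpow1 : ∀ s : G, s ^ m = 1 → s ^ e = s := by
    intro s hs
    have : e % m = 1 % m := he1
    conv_rhs => rw [← pow_one s]
    exact (pow_eq_pow_iff_modEq.2 (Nat.ModEq.of_dvd (orderOf_dvd_of_pow_eq_one hs) he1))
  have hFzero : ∀ s : G, s ^ m ≠ 1 → F s = 0 := by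
    intro s hs
    simp only [hF]
    rw [Nat.card_eq_zero]
    left
    constructor
    rintro ⟨g, rfl⟩
    apply hs
    obtain ⟨c, hc⟩ := hqe
    rw [← pow_mul, hc, show q * c * m = (q * m) * c by ring, pow_mul, hpow_card, one_pow]
  have hFval : ∀ s : G, s ^ m = 1 →
      F s = Nat.card {x : G // Commute s x ∧ ∃ k : ℕ, x ^ (p ^ k) = 1} := by
    intro s hs
    refine Nat.card_congr ⟨fun g => ⟨s⁻¹ * g.1, ?_, ?_⟩, fun x => ⟨s * x.1, ?_⟩, ?_, ?_⟩
    · obtain ⟨g, rfl⟩ := g
      have h1 : Commute (g ^ e) g := (Commute.refl g).pow_left e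
      exact (Commute.refl (g ^ e)).inv_right.mul_right h1
    · refine ⟨(Nat.card G).factorization p, ?_⟩
      rw [← hq]
      obtain ⟨g, rfl⟩ := g
      have h1 : Commute (g ^ e) g := (Commute.refl g).pow_left e
      rw [h1.inv_left.mul_pow, inv_pow, inv_mul_eq_one, ← pow_mul]
      have h2 : e * q ≡ 1 * q [MOD (m * q)] := Nat.ModEq.mul_right' q he1
      rw [one_mul] at h2
      refine pow_eq_pow_iff_modEq.2 (h2.of_dvd ?_)
      rw [mul_comm m q]
      exact orderOf_dvd_of_pow_eq_one (hpow_card g)
    · obtain ⟨x, hx1, hx2⟩ := x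
      simp only
      rw [hx1.mul_pow, hpow1 s hs]
      obtain ⟨c, hc⟩ := hqe
      rw [hc, pow_mul x, hpq x hx2, one_pow, mul_one]
    · intro g; simp
    · intro x; simp
  -- invariance under conjugation
  have hFconj : ∀ s t : G, IsConj s t → F s = F t := by
    intro s t hst
    obtain ⟨c, rfl⟩ := isConj_iff.1 hst
    refine Nat.card_congr ⟨fun g => ⟨c * g.1 * c⁻¹, ?_⟩, fun g => ⟨c⁻¹ * g.1 * c, ?_⟩, ?_, ?_⟩
    · rw [conj_pow, g.2]
    · have := g.2
      have h2 : (c⁻¹ * g.1 * c) ^ e = c⁻¹ * g.1 ^ e * c := by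
        have := conj_pow (a := c⁻¹) (b := g.1) (i := e)
        rwa [inv_inv] at this
      rw [h2, this]; group
    · intro g; ext; simp [mul_assoc]
    · intro g; ext; simp [mul_assoc]
  -- noncentral part
  have hnc : ∀ s : G, s ∉ Subgroup.center G →
      q ∣ ∑ t ∈ univ.filter (fun t : G => ConjClasses.mk t = ConjClasses.mk s), F t := by
    intro s hs
    have h1 : ∑ t ∈ univ.filter (fun t : G => ConjClasses.mk t = ConjClasses.mk s), F t
        = (univ.filter (fun t : G => ConjClasses.mk t = ConjClasses.mk s)).card * F s := by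
      rw [← smul_eq_mul, ← Finset.sum_const]
      refine Finset.sum_congr rfl fun t ht => ?_
      exact hFconj t s (ConjClasses.mk_eq_mk_iff_isConj.1 (Finset.mem_filter.1 ht).2)
    rw [h1]
    by_cases hsm : s ^ m = 1
    swap
    · rw [hFzero s hsm]; simp
    set C : Subgroup G := Subgroup.centralizer {s} with hC
    have hCmem : ∀ x : G, x ∈ C ↔ x * s = s * x := fun x => by
      rw [hC, Subgroup.mem_centralizer_singleton_iff]
    have hCdvd : Nat.card C ∣ Nat.card G := Subgroup.card_subgroup_dvd_card C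
    have hClt : Nat.card C < n := by
      rw [← hn]
      refine lt_of_le_of_ne (Nat.le_of_dvd (Nat.pos_of_ne_zero hG0) hCdvd) ?_
      intro hcard
      apply hs
      have : C = ⊤ := Subgroup.eq_top_of_card_eq C hcard
      rw [Subgroup.mem_center_iff]
      intro g
      have hg : g ∈ C := by rw [this]; trivial
      exact (hCmem g).1 hg
    have ihC := ih (Nat.card C) hClt C rfl
    have hFC : F s = Nat.card {g : C // ∃ k : ℕ, g ^ (p ^ k) = 1} := by
      rw [hFval s hsm]
      refine Nat.card_congr ⟨fun x => ⟨⟨x.1, ?_⟩, ?_⟩, fun x => ⟨x.1.1, ?_, ?_⟩, ?_, ?_⟩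
      · exact (hCmem _).2 x.2.1.eq.symm
      · obtain ⟨k, hk⟩ := x.2.2
        exact ⟨k, by ext; simpa using hk⟩
      · exact ((hCmem _).1 x.1.2).symm
      · obtain ⟨k, hk⟩ := x.2
        exact ⟨k, by simpa using congrArg Subtype.val hk⟩
      · intro x; rfl
      · intro x; rfl
    have hcl : (univ.filter (fun t : G => ConjClasses.mk t = ConjClasses.mk s)).card * Nat.card C
        = Nat.card G := by
      have h2 := MulAction.card_orbit_mul_card_stabilizer_eq_card_group (ConjAct G) s
      have h3 : (univ.filter (fun t : G => ConjClasses.mk t = ConjClasses.mk s)).card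
          = Fintype.card (MulAction.orbit (ConjAct G) s) := by
        rw [← Fintype.card_coe]
        refine Fintype.card_congr (Equiv.subtypeEquivRight fun t => ?_)
        rw [Finset.mem_filter, ConjAct.orbit_eq_carrier_conjClasses, ConjClasses.mem_carrier_iff_mk_eq]
        simp
      have h4 : Nat.card C = Fintype.card (MulAction.stabilizer (ConjAct G) s) := by
        rw [← Nat.card_eq_fintype_card]
        refine Nat.card_congr ⟨fun x => ⟨ConjAct.toConjAct x.1, ?_⟩,
          fun x => ⟨ConjAct.ofConjAct x.1, ?_⟩, ?_, ?_⟩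
        · have := (hCmem _).1 x.2
          rw [MulAction.mem_stabilizer_iff, ConjAct.smul_def, ConjAct.ofConjAct_toConjAct, this,
            mul_inv_cancel_right]
        · have := x.2
          rw [MulAction.mem_stabilizer_iff, ConjAct.smul_def, mul_inv_eq_iff_eq_mul] at this
          exact (hCmem _).2 this
        · intro x; rfl
        · intro x; rfl
      rw [h3, h4, h2, ← Nat.card_eq_fintype_card]
      exact Nat.card_congr ConjAct.ofConjAct.toEquiv
    have hcard0 : (univ.filter (fun t : G => ConjClasses.mk t = ConjClasses.mk s)).card ≠ 0 := by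
      intro h0
      rw [h0, zero_mul] at hcl
      exact hG0 hcl.symm
    have hq' : q = p ^ ((univ.filter (fun t : G => ConjClasses.mk t = ConjClasses.mk s)).card).factorization p
        * p ^ (Nat.card C).factorization p := by
      rw [hq, ← hcl, Nat.factorization_mul hcard0 Nat.card_pos.ne', Finsupp.add_apply, pow_add]
    rw [hq', hFC]
    exact Nat.mul_dvd_mul (Nat.ordProj_dvd _ _) ihC
  -- the total sum over noncentral elements
  have hncsum : q ∣ ∑ s ∈ univ.filter (fun s : G => s ∉ Subgroup.center G), F s := by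
    have h1 : ∑ s ∈ univ.filter (fun s : G => s ∉ Subgroup.center G), F s =
        ∑ c ∈ (univ.filter (fun s : G => s ∉ Subgroup.center G)).image ConjClasses.mk,
          ∑ t ∈ (univ.filter (fun s : G => s ∉ Subgroup.center G)).filter
            (fun t : G => ConjClasses.mk t = c), F t :=
      (Finset.sum_fiberwise_of_maps_to (fun i hi => Finset.mem_image_of_mem _ hi) F).symm
    rw [h1]
    refine Finset.dvd_sum fun c hc => ?_
    obtain ⟨s, hs, rfl⟩ := Finset.mem_image.1 hc
    have hs' : s ∉ Subgroup.center G := (Finset.mem_filter.1 hs).2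
    have h2 : (univ.filter (fun s : G => s ∉ Subgroup.center G)).filter
            (fun t : G => ConjClasses.mk t = ConjClasses.mk s)
          = univ.filter (fun t : G => ConjClasses.mk t = ConjClasses.mk s) := by
      ext t
      simp only [Finset.mem_filter, Finset.mem_univ, true_and]
      refine ⟨fun h => h.2, fun h => ⟨?_, h⟩⟩
      intro ht
      have hconj := ConjClasses.mk_eq_mk_iff_isConj.1 h
      obtain ⟨c, hc⟩ := isConj_iff.1 hconj
      apply hs'
      rw [← hc]
      have : c * t * c⁻¹ = t := by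
        rw [(Subgroup.mem_center_iff.1 ht c), mul_inv_cancel_right]
      rw [this]; exact ht
    rw [h2]
    exact hnc s hs'
  -- the central part
  set Zm : Subgroup G :=
    { carrier := {s | s ∈ Subgroup.center G ∧ s ^ m = 1}
      one_mem' := ⟨Subgroup.one_mem _, one_pow _⟩
      mul_mem' := by
        rintro a b ⟨ha, ha'⟩ ⟨hb, hb'⟩
        refine ⟨Subgroup.mul_mem _ ha hb, ?_⟩
        have hc : Commute a b := (Subgroup.mem_center_iff.1 hb a)
        rw [hc.mul_pow, ha', hb', one_mul]
      inv_mem' := by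
        rintro a ⟨ha, ha'⟩
        exact ⟨Subgroup.inv_mem _ ha, by rw [inv_pow, ha', inv_one]⟩ } with hZm
  have hcentral : ∑ s ∈ univ.filter (fun s : G => s ∈ Subgroup.center G), F s
      = Nat.card Zm * Nat.card {g : G // ∃ k : ℕ, g ^ (p ^ k) = 1} := by
    have h1 : ∑ s ∈ univ.filter (fun s : G => s ∈ Subgroup.center G), F s
        = ∑ s ∈ univ.filter (fun s : G => s ∈ Subgroup.center G ∧ s ^ m = 1), F s := by
      symm
      refine Finset.sum_subset ?_ ?_
      · intro s hs
        simp only [Finset.mem_filter, Finset.mem_univ, true_and] at hs ⊢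
        exact hs.1
      · intro s hs hs'
        simp only [Finset.mem_filter, Finset.mem_univ, true_and, not_and] at hs hs'
        exact hFzero s (hs' hs)
    rw [h1]
    have h2 : ∀ s ∈ univ.filter (fun s : G => s ∈ Subgroup.center G ∧ s ^ m = 1),
        F s = Nat.card {g : G // ∃ k : ℕ, g ^ (p ^ k) = 1} := by
      intro s hs
      simp only [Finset.mem_filter, Finset.mem_univ, true_and] at hs
      rw [hFval s hs.2]
      refine Nat.card_congr (Equiv.subtypeEquivRight fun x => ?_)
      refine ⟨fun h => h.2, fun h => ⟨?_, h⟩⟩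
      exact ((Subgroup.mem_center_iff.1 hs.1 x).symm)
    rw [Finset.sum_congr rfl h2, Finset.sum_const, smul_eq_mul]
    congr 1
    rw [← Fintype.card_coe, ← Nat.card_eq_fintype_card]
    refine Nat.card_congr (Equiv.subtypeEquivRight fun t => ?_)
    simp [hZm, Subgroup.mem_mk]
  have hZcop : Nat.Coprime q (Nat.card Zm) := by
    refine Nat.Coprime.pow_left _ ?_
    rw [hp.coprime_iff_not_dvd]
    intro hdvd
    obtain ⟨x, hx⟩ := exists_prime_orderOf_dvd_card' p hdvd
    have hx2 : (x : G) ^ m = 1 := x.2.2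
    have hx3 : orderOf (x : G) = p := by rw [Subgroup.orderOf_coe, hx]
    have : p ∣ m := by rw [← hx3]; exact orderOf_dvd_of_pow_eq_one hx2
    exact (hp.coprime_iff_not_dvd.1 (Nat.coprime_ordCompl hp hG0)) this
  have htot : q ∣ Nat.card Zm * Nat.card {g : G // ∃ k : ℕ, g ^ (p ^ k) = 1} := by
    rw [← hcentral]
    have h1 : ∑ s : G, F s = ∑ s ∈ univ.filter (fun s : G => s ∈ Subgroup.center G), F s
        + ∑ s ∈ univ.filter (fun s : G => s ∉ Subgroup.center G), F s :=
      (Finset.sum_filter_add_sum_filter_not _ _ _).symm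
    have h2 : q ∣ ∑ s : G, F s := by rw [← hsum, ← hqm]; exact Dvd.intro _ rfl
    rw [h1] at h2
    exact (Nat.dvd_add_left hncsum).1 h2
  exact hZcop.dvd_of_dvd_mul_left htot

/-- If for every divisor `d > 1` of `|G|` and every subgroup `H` of order coprime to `d` the order
of `H` divides the number of elements of order exactly `d`, then every element of the finite
group `G` has prime-power order. -/
theorem result : ∀ (G : Type u) [Group G] [Finite G],
    (∀ d : ℕ, 1 < d → d ∣ Nat.card G → ∀ H : Subgroup G, Nat.gcd (Nat.card H) d = 1 →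
      Nat.card H ∣ Nat.card {g : G // orderOf g = d}) →
    ∀ g : G, ∃ p k : ℕ, p.Prime ∧ orderOf g = p ^ k := by
  intro G _ _ hstar
  classical
  let _ : Fintype G := Fintype.ofFinite G
  have hG0 : Nat.card G ≠ 0 := Nat.card_pos.ne'
  set PP : Finset G := univ.filter (fun g : G => ∃ p k : ℕ, p.Prime ∧ orderOf g = p ^ k) with hPP
  -- the number of elements of prime power order is divisible by every prime power part of |G|
  have hdvd : ∀ r : ℕ, r.Prime → r ^ (Nat.card G).factorization r ∣ PP.card := by
    intro r hr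
    have : Fact r.Prime := ⟨hr⟩
    set A : Finset G := univ.filter (fun g : G => ∃ k : ℕ, g ^ (r ^ k) = 1) with hA
    set B : Finset G := univ.filter
      (fun g : G => ∃ p k : ℕ, p.Prime ∧ p ≠ r ∧ 1 ≤ k ∧ orderOf g = p ^ k) with hB
    have hdisj : Disjoint A B := by
      rw [Finset.disjoint_left]
      intro g hgA hgB
      simp only [hA, hB, Finset.mem_filter, Finset.mem_univ, true_and] at hgA hgB
      obtain ⟨k, hk⟩ := hgA
      obtain ⟨p, l, hp, hpr, hl, ho⟩ := hgB
      have h1 : p ^ l ∣ r ^ k := by rw [← ho]; exact orderOf_dvd_of_pow_eq_one hk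
      have h2 : p ∣ r ^ k := (dvd_pow_self p (by omega)).trans h1
      exact hpr ((Nat.prime_dvd_prime_iff_eq hp hr).1 (hp.dvd_of_dvd_pow h2))
    have hunion : PP = A ∪ B := by
      ext g
      simp only [hPP, hA, hB, Finset.mem_filter, Finset.mem_univ, true_and, Finset.mem_union]
      constructor
      · rintro ⟨p, k, hp, ho⟩
        by_cases hpr : p = r
        · left; subst hpr; exact ⟨k, by rw [← ho]; exact pow_orderOf_eq_one g⟩
        · rcases Nat.eq_zero_or_pos k with hk | hk
          · left; subst hk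
            refine ⟨0, ?_⟩
            rw [pow_zero] at ho
            rw [orderOf_eq_one_iff.1 ho, one_pow]
          · right; exact ⟨p, k, hp, hpr, hk, ho⟩
      · rintro (⟨k, hk⟩ | ⟨p, k, hp, -, -, ho⟩)
        · obtain ⟨j, -, hj⟩ := (Nat.dvd_prime_pow hr).1 (orderOf_dvd_of_pow_eq_one hk)
          exact ⟨r, j, hr, hj⟩
        · exact ⟨p, k, hp, ho⟩
    rw [hunion, Finset.card_union_of_disjoint hdisj]
    refine dvd_add ?_ ?_
    · have h1 := frobenius_p r hr (Nat.card G) G rfl
      rwa [Nat.card_eq_fintype_card (α := {g : G // ∃ k : ℕ, g ^ (r ^ k) = 1}),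
        Fintype.card_subtype] at h1
    · set D : Finset ℕ := (Nat.card G).divisors.filter
        (fun d => ∃ p k : ℕ, p.Prime ∧ p ≠ r ∧ 1 ≤ k ∧ d = p ^ k) with hD
      have hmaps : ∀ g ∈ B, orderOf g ∈ D := by
        intro g hg
        simp only [hB, hD, Finset.mem_filter, Finset.mem_univ, true_and, Nat.mem_divisors] at hg ⊢
        exact ⟨⟨orderOf_dvd_natCard g, hG0⟩, hg⟩
      rw [Finset.card_eq_sum_card_fiberwise hmaps]
      refine Finset.dvd_sum fun d hd => ?_
      simp only [hD, Finset.mem_filter, Nat.mem_divisors] at hd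
      obtain ⟨⟨hdG, -⟩, p, k, hp, hpr, hk, hdp⟩ := hd
      obtain ⟨P⟩ : Nonempty (Sylow r G) := inferInstance
      have hPcard : Nat.card P = r ^ (Nat.card G).factorization r := P.card_eq_multiplicity
      have hcop : Nat.gcd (Nat.card (P : Subgroup G)) d = 1 := by
        rw [hPcard, hdp]
        exact Nat.Coprime.pow _ _ ((Nat.coprime_primes hr hp).2 (Ne.symm hpr))
      have h1d : 1 < d := by
        rw [hdp]; exact Nat.one_lt_pow (by omega) hp.one_lt
      have h2 := hstar d h1d hdG P hcop
      rw [hPcard] at h2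
      have h3 : (B.filter (fun g => orderOf g = d)).card = Nat.card {g : G // orderOf g = d} := by
        rw [Nat.card_eq_fintype_card, Fintype.card_subtype]
        congr 1
        ext g
        simp only [hB, Finset.mem_filter, Finset.mem_univ, true_and]
        exact ⟨fun h => h.2, fun h => ⟨⟨p, k, hp, hpr, hk, by rw [h, hdp]⟩, h⟩⟩
      rw [h3]
      exact h2
  have hall : Nat.card G ∣ PP.card := by
    rw [Nat.dvd_iff_prime_pow_dvd_dvd]
    intro p k hp hpk
    exact ((hp.pow_dvd_iff_le_factorization hG0).1 hpk |> fun h => pow_dvd_pow p h).trans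
      (hdvd p hp)
  have hpos : 0 < PP.card := by
    refine Finset.card_pos.2 ⟨1, ?_⟩
    simp only [hPP, Finset.mem_filter, Finset.mem_univ, true_and]
    exact ⟨2, 0, Nat.prime_two, by simp⟩
  have hle : PP.card ≤ Nat.card G := by
    rw [Nat.card_eq_fintype_card]; exact Finset.card_le_univ _
  have heq : PP.card = Fintype.card G := by
    rw [← Nat.card_eq_fintype_card]
    exact le_antisymm hle (Nat.le_of_dvd hpos hall)
  have huniv : PP = univ := (Finset.card_eq_iff_eq_univ PP).1 heq
  intro g
  have hg : g ∈ PP := by rw [huniv]; exact Finset.mem_univ g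
  simpa [hPP] using hg

end Pool.Agent.Results.MP_9320d9_al.PrimePowerOrders
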